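import Pool.Agent.helper95.T5.SpecN

set_option autoImplicit false

/-!
# T5, row FIB: two sided estimate for a fibre
-/

namespace Pool.Agent.T5

open Finset NumberField Pool.Agent.helper3.FT Pool.Agent.helper47.RA

theorem FIB_cnt (m₀ r : ℤ) (M P : ℕ) (hP : 1 ≤ P) :
    |(((Ico m₀ (m₀ + M)).filter (fun m => (P : ℤ) ∣ m - r)).card : ℝ) - (M : ℝ) / P| ≤ 1 := by
  have hP' : (0 : ℤ) < P := by exact_mod_cast hP
  have h1 : (Ico m₀ (m₀ + M)).filter (fun m => (P : ℤ) ∣ m - r) =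
      (Ico m₀ (m₀ + M)).filter (fun m => m ≡ r [ZMOD P]) := by
    refine Finset.filter_congr fun m _ => ?_
    rw [Int.modEq_iff_dvd, ← neg_sub r m, dvd_neg]
  rw [h1]
  have h2 := Int.Ico_filter_modEq_card m₀ (m₀ + M) hP' r
  have hPQ : (0 : ℚ) < (P : ℤ) := by exact_mod_cast hP'
  have h3 : ⌈((m₀ : ℤ) - r : ℚ) / ((P : ℤ) : ℚ)⌉ ≤ ⌈(((m₀ + M : ℤ) : ℚ) - r) / ((P : ℤ) : ℚ)⌉ := by
    apply Int.ceil_le_ceil
    apply div_le_div_of_nonneg_right _ hPQ.le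
    push_cast
    have : (0 : ℚ) ≤ M := Nat.cast_nonneg M
    linarith
  rw [max_eq_left (by linarith)] at h2
  have h4 : (((Ico m₀ (m₀ + M)).filter (fun m => m ≡ r [ZMOD P])).card : ℚ) =
      (⌈(((m₀ + M : ℤ) : ℚ) - r) / ((P : ℤ) : ℚ)⌉ : ℚ) - (⌈((m₀ : ℤ) - r : ℚ) / ((P : ℤ) : ℚ)⌉ : ℚ) := by
    exact_mod_cast congrArg (fun z : ℤ => (z : ℚ)) h2
  have a1 := Int.le_ceil ((((m₀ + M : ℤ) : ℚ) - r) / ((P : ℤ) : ℚ))
  have a2 := Int.ceil_lt_add_one ((((m₀ + M : ℤ) : ℚ) - r) / ((P : ℤ) : ℚ))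
  have a3 := Int.le_ceil (((m₀ : ℤ) - r : ℚ) / ((P : ℤ) : ℚ))
  have a4 := Int.ceil_lt_add_one (((m₀ : ℤ) - r : ℚ) / ((P : ℤ) : ℚ))
  have h5 : (((m₀ + M : ℤ) : ℚ) - r) / ((P : ℤ) : ℚ) = ((m₀ : ℤ) - r : ℚ) / ((P : ℤ) : ℚ) + (M : ℚ) / P := by
    push_cast
    ring
  have h6 : |(((Ico m₀ (m₀ + M)).filter (fun m => m ≡ r [ZMOD P])).card : ℚ) - (M : ℚ) / P| ≤ 1 := by
    rw [h4, abs_le]
    constructor <;> linarith
  have h7 := (Rat.cast_le (K := ℝ)).2 h6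
  push_cast at h7
  exact h7

theorem FIB_e_add (x y : ℝ) : e (x + y) = e x * e y := by
  unfold e
  rw [← Complex.exp_add]
  congr 1
  push_cast
  ring

theorem FIB_e_norm (x : ℝ) : ‖e x‖ = 1 := by
  unfold e
  have h : (2 * Real.pi * Complex.I * x : ℂ) = ((2 * Real.pi * x : ℝ) : ℂ) * Complex.I := by
    push_cast
    ring
  rw [h]
  exact Complex.norm_exp_ofReal_mul_I _

/-- row FIB -/
theorem FIB (hTRZ : TRZ_stmt) : FIB_stmt := by
  intro m₀ g₀ z₀ M G V J P q r r' α β γ c₀ hP hPM hPG hJ hJV hVJ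
  obtain ⟨A, hA⟩ : ∃ A, A = (Ico m₀ (m₀ + M)).filter (fun m => (P : ℤ) ∣ m - r) := ⟨_, rfl⟩
  obtain ⟨B, hB⟩ : ∃ B, B = (Ico g₀ (g₀ + G)).filter (fun g => (P : ℤ) ∣ g - r') := ⟨_, rfl⟩
  have h0 := hTRZ (A ×ˢ B) (fun i => α * i.1 ^ 2 + β * i.1 * i.2 + γ * i.2 ^ 2 + c₀) q V J z₀ hJ hJV hVJ
  -- the fibre
  have hcard : (fibG m₀ g₀ z₀ M G V P q r r' α β γ c₀).card = ((A ×ˢ B).filter (fun i =>
      ∃ z ∈ Ico z₀ (z₀ + V), (q : ℤ) ∣ (α * i.1 ^ 2 + β * i.1 * i.2 + γ * i.2 ^ 2 + c₀) - z)).card := by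
    refine Finset.card_bij (fun t _ => (t.1, t.2.1)) ?_ ?_ ?_
    · intro t ht
      unfold fibG at ht
      rw [← hA, ← hB, Finset.mem_filter, Finset.mem_product, Finset.mem_product] at ht
      rw [Finset.mem_filter, Finset.mem_product]
      refine ⟨⟨ht.1.1, ht.1.2.1⟩, t.2.2, ht.1.2.2, ?_⟩
      rw [← neg_sub, dvd_neg]
      exact ht.2
    · intro t ht t' ht' h
      unfold fibG at ht ht'
      rw [← hA, ← hB, Finset.mem_filter, Finset.mem_product, Finset.mem_product] at ht ht'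
      obtain ⟨⟨-, -, hz⟩, hd⟩ := ht
      obtain ⟨⟨-, -, hz'⟩, hd'⟩ := ht'
      have e1 : t.1 = t'.1 := (Prod.mk.inj h).1
      have e2 : t.2.1 = t'.2.1 := (Prod.mk.inj h).2
      have e3 : t.2.2 = t'.2.2 := by
        rw [← e1, ← e2] at hd'
        have hsub := dvd_sub hd hd'
        rw [sub_sub_sub_cancel_right] at hsub
        rw [Finset.mem_Ico] at hz hz'
        have hlt : |t.2.2 - t'.2.2| < q := by
          have : (V : ℤ) + J ≤ q := by exact_mod_cast hVJ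
          rw [abs_lt]
          constructor <;> linarith [hz.1, hz.2, hz'.1, hz'.2, (Nat.cast_nonneg J : (0 : ℤ) ≤ J)]
        have := Int.eq_zero_of_abs_lt_dvd hsub hlt
        linarith
      exact Prod.ext e1 (Prod.ext e2 e3)
    · intro i hi
      rw [Finset.mem_filter, Finset.mem_product] at hi
      obtain ⟨⟨hi1, hi2⟩, z, hz, hd⟩ := hi
      refine ⟨(i.1, i.2, z), ?_, rfl⟩
      unfold fibG
      rw [← hA, ← hB, Finset.mem_filter, Finset.mem_product, Finset.mem_product]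
      refine ⟨⟨hi1, hi2, hz⟩, ?_⟩
      rw [← neg_sub, dvd_neg]
      exact hd
  -- the exponential sums
  have hES : ∀ h : ℕ, ‖∑ i ∈ A ×ˢ B, e (h * ((α * i.1 ^ 2 + β * i.1 * i.2 + γ * i.2 ^ 2 + c₀ : ℤ) : ℝ) / q)‖ =
      ‖ESg m₀ g₀ M G P r r' (h * α / q) (h * β / q) (h * γ / q) 0 0‖ := by
    intro h
    have : ∑ i ∈ A ×ˢ B, e (h * ((α * i.1 ^ 2 + β * i.1 * i.2 + γ * i.2 ^ 2 + c₀ : ℤ) : ℝ) / q) =
        e (h * c₀ / q) * ESg m₀ g₀ M G P r r' (h * α / q) (h * β / q) (h * γ / q) 0 0 := by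
      unfold ESg
      rw [← hA, ← hB, Finset.sum_product, Finset.mul_sum]
      refine Finset.sum_congr rfl fun m _ => ?_
      rw [Finset.mul_sum]
      refine Finset.sum_congr rfl fun g _ => ?_
      rw [← FIB_e_add]
      congr 1
      push_cast
      ring
    rw [this, norm_mul, FIB_e_norm, one_mul]
  rw [← hcard] at h0
  simp only [hES] at h0
  -- numbers
  have hAc := FIB_cnt m₀ r M P hP
  have hBc := FIB_cnt g₀ r' G P hP
  rw [← hA] at hAc
  rw [← hB] at hBc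
  rw [Finset.card_product, Nat.cast_mul] at h0
  generalize ((fibG m₀ g₀ z₀ M G V P q r r' α β γ c₀).card : ℝ) = F at *
  generalize (A.card : ℝ) = a at *
  generalize (B.card : ℝ) = b at *
  generalize 4 / (J * q : ℝ) * ∑ h ∈ Icc 1 (q / 2), min (2 * V : ℝ) (q / (2 * h)) * min (J : ℝ) (q / (2 * h)) *
        ‖ESg m₀ g₀ M G P r r' (h * α / q) (h * β / q) (h * γ / q) 0 0‖ = S at *
  have hP0 : (0 : ℝ) < P := by exact_mod_cast hP
  have hx : (1 : ℝ) ≤ (M : ℝ) / P := by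
    rw [le_div_iff₀ hP0, one_mul]
    exact_mod_cast hPM
  have hy : (1 : ℝ) ≤ (G : ℝ) / P := by
    rw [le_div_iff₀ hP0, one_mul]
    exact_mod_cast hPG
  generalize (M : ℝ) / P = x at *
  generalize (G : ℝ) / P = y at *
  have hq : (0 : ℝ) < q := by
    have : 0 < q := by omega
    exact_mod_cast this
  have hV0 : (0 : ℝ) ≤ V := Nat.cast_nonneg V
  have hJ0 : (0 : ℝ) ≤ J := Nat.cast_nonneg J
  rw [abs_le] at hAc hBc
  have ha : a ≤ 2 * x := by linarith [hAc.2]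
  have hb : b ≤ 2 * y := by linarith [hBc.2]
  have ha0 : 0 ≤ a := by linarith [hAc.1]
  have hb0 : 0 ≤ b := by linarith [hBc.1]
  have hab : a * b ≤ 4 * (x * y) := by
    have := mul_le_mul ha hb hb0 (by linarith)
    linarith
  have hd : |a * b - x * y| ≤ 4 * (x + y) := by
    have e1 : a * b - x * y = (a - x) * b + x * (b - y) := by ring
    rw [e1]
    refine (abs_add_le _ _).trans ?_
    rw [abs_mul, abs_mul, abs_of_nonneg hb0, abs_of_nonneg (by linarith : (0 : ℝ) ≤ x)]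
    have h1 : |a - x| ≤ 1 := abs_le.2 hAc
    have h2 : |b - y| ≤ 1 := abs_le.2 hBc
    have h3 : |a - x| * b ≤ 1 * (2 * y) := mul_le_mul h1 hb hb0 zero_le_one
    have h4 : x * |b - y| ≤ x * 1 := mul_le_mul_of_nonneg_left h2 (by linarith)
    linarith
  have hfin : |F - x * y * V / q| ≤ |F - a * b * V / q| + |a * b - x * y| * V / q := by
    have e1 : F - x * y * V / q = (F - a * b * V / q) + (a * b - x * y) * V / q := by ring
    rw [e1]
    refine (abs_add_le _ _).trans ?_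
    rw [abs_div, abs_mul, abs_of_nonneg hV0, abs_of_pos hq]
  refine hfin.trans ?_
  have h5 : |a * b - x * y| * V / q ≤ 4 * (x + y) * V / q := by
    apply div_le_div_of_nonneg_right _ hq.le
    exact mul_le_mul_of_nonneg_right hd hV0
  have h6 : a * b * J / q ≤ 4 * J * x * y / q := by
    apply div_le_div_of_nonneg_right _ hq.le
    have := mul_le_mul_of_nonneg_right hab hJ0
    linarith
  have h7 : (4 * J * x * y + 4 * (x + y) * V) / q = 4 * J * x * y / q + 4 * (x + y) * V / q := by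
    rw [add_div]
  rw [h7]
  linarith

end Pool.Agent.T5
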