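import Pool.Agent.helper26.T5.SpecH

/-! # Row t5:HGA. The ideals `a` in one class -/

set_option autoImplicit false

namespace Pool.Agent.helper26.T5

open Finset NumberField Pool.Agent.helper3.FT Pool.Agent.helper47.RA Pool.Agent.T5
open Pool.Agent.helper28.LT (rad)

variable {K : Type} [Field K] [NumberField K]

omit [NumberField K] in
/-- an integer generator, with its absolute value -/
theorem HGA_natAbs (c : ℤ) : Ideal.span {(c : 𝓞 K)} = Ideal.span {((c.natAbs : ℕ) : 𝓞 K)} := by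
  have h := span_abs (K := K) c c.natAbs (by simp)
  exact h.symm

theorem HGA_norm_pos (a : Ideal (𝓞 K)) (ha : a ≠ ⊥) : 1 ≤ Ideal.absNorm a := by
  rw [Nat.one_le_iff_ne_zero, Ne, Ideal.absNorm_eq_zero_iff]
  exact ha

/-- `bar a * a' = (c)` with a rational integer `c` forces `a = a'` -/
theorem HGA_eq (hHPR : HPR) (Q : QF K) (a a' : Ideal (𝓞 K)) (ha : a ≠ ⊥) (ha' : a' ≠ ⊥)
    (pa : Prim a) (pa' : Prim a') (x : 𝓞 K) (hx : Ideal.span {x} = Q.bar a * a')
    (hY : Q.Y x = 0) : a' = a := by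
  obtain ⟨c, rfl⟩ := (Q.Y_eq_zero_iff x).1 hY
  have h1 : Ideal.span {((Ideal.absNorm a : ℕ) : 𝓞 K)} * a' =
      Ideal.span {((c.natAbs : ℕ) : 𝓞 K)} * a := by
    rw [← HGA_natAbs c, hx, ← Q.mul_bar a]
    ring
  have hc : c.natAbs ≠ 0 := by
    intro h
    rw [h] at h1
    have h2 : Ideal.span {((0 : ℕ) : 𝓞 K)} = ⊥ := by simp
    rw [h2, Ideal.bot_mul, Ideal.mul_eq_bot] at h1
    rcases h1 with h1 | h1
    · rw [Ideal.span_singleton_eq_bot] at h1
      have h3 : Ideal.absNorm a = 0 := by exact_mod_cast h1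
      have := HGA_norm_pos a ha
      omega
    · exact ha' h1
  exact hHPR K a' a (Ideal.absNorm a) c.natAbs (HGA_norm_pos a ha) (Nat.one_le_iff_ne_zero.2 hc)
    pa' pa h1

/-- the generator `z` of `a * bar a₀` -/
theorem HGA_z (hHPR : HPR) (Q : QF K) (f b : ℕ) (A : Ideal (𝓞 K)) (hD : Q.D < 0)
    (hb : 1 ≤ b) (hA : Ideal.absNorm A = b ^ 5) (a a₀ : Ideal (𝓞 K)) (ha : a ≠ ⊥) (ha₀ : a₀ ≠ ⊥)
    (pa : Prim a) (pa₀ : Prim a₀) (hne : a ≠ a₀) (θ θ₀ : 𝓞 K) (hθ : Ideal.span {θ} = a ^ 5 * A)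
    (hθ₀ : Ideal.span {θ₀} = a₀ ^ 5 * A) (hf : (f : ℤ) ∣ Q.Y θ) (hf₀ : (f : ℤ) ∣ Q.Y θ₀)
    (hpr : (a * Q.bar a₀).IsPrincipal) :
    ∃ z : 𝓞 K, Ideal.span {z} = a * Q.bar a₀ ∧ 0 < Q.Y z ∧
      ∀ p : ℕ, p.Prime → p ∣ f → ¬ p ∣ b → (p : ℤ) ∣ Q.Y (z ^ 5) := by
  obtain ⟨w, hw⟩ := hpr
  have hw' : Ideal.span {w} = a * Q.bar a₀ := hw.symm
  have hb0 : (b : 𝓞 K) ≠ 0 := by
    have : b ≠ 0 := by omega
    exact_mod_cast this
  -- the unit
  have h1 : Ideal.span {θ * Q.cj θ₀} = Ideal.span {(b : 𝓞 K) ^ 5 * w ^ 5} := by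
    rw [← Ideal.span_singleton_mul_span_singleton, ← Ideal.span_singleton_mul_span_singleton,
      ← Ideal.span_singleton_pow, ← Ideal.span_singleton_pow, hw', hθ, ← Q.bar_span, hθ₀,
      Q.bar_mul, Q.bar_pow, Ideal.span_singleton_pow]
    have h2 : A * Q.bar A = Ideal.span {(b : 𝓞 K) ^ 5} := by
      rw [Q.mul_bar, hA]
      push_cast
      rfl
    calc a ^ 5 * A * (Q.bar a₀ ^ 5 * Q.bar A) = (A * Q.bar A) * (a * Q.bar a₀) ^ 5 := by ring
      _ = _ := by rw [h2]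
  rw [Ideal.span_singleton_eq_span_singleton] at h1
  obtain ⟨ε, hε⟩ := h1.symm
  -- `b ^ 5 w ^ 5 ε = θ cj θ₀`
  have hε12 : ((ε : 𝓞 K)) ^ 12 = 1 := Pool.Agent.helper28.LT.unit_pow Q hD _ ε.isUnit
  set z₁ : 𝓞 K := (ε : 𝓞 K) ^ 5 * w with hz₁
  have hz5 : (b : 𝓞 K) ^ 5 * z₁ ^ 5 = θ * Q.cj θ₀ := by
    rw [← hε, hz₁]
    have h3 : ((ε : 𝓞 K) ^ 5 * w) ^ 5 = ((ε : 𝓞 K) ^ 12) ^ 2 * ε * w ^ 5 := by ring
    rw [h3, hε12]
    ring
  have hspan : Ideal.span {z₁} = a * Q.bar a₀ := by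
    rw [← hw', hz₁, mul_comm]
    exact Ideal.span_singleton_mul_right_unit (ε.isUnit.pow 5) w
  have hYz : Q.Y z₁ ≠ 0 := by
    intro h
    apply hne
    apply HGA_eq hHPR Q a₀ a ha₀ ha pa₀ pa z₁ _ h
    rw [hspan, mul_comm]
  have hdiv : ∀ p : ℕ, p.Prime → p ∣ f → ¬ p ∣ b → (p : ℤ) ∣ Q.Y (z₁ ^ 5) := by
    intro p hp hpf hpb
    have hpf' : (p : ℤ) ∣ (f : ℤ) := by exact_mod_cast hpf
    have h3 : (p : ℤ) ∣ Q.Y (θ * Q.cj θ₀) :=
      QF.h96_Y_mul Q _ (hpf'.trans hf) (QF.h96_Y_cj Q _ (hpf'.trans hf₀))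
    rw [← hz5] at h3
    have h4 : (b : 𝓞 K) ^ 5 = (((b : ℤ) ^ 5 : ℤ) : 𝓞 K) := by push_cast; rfl
    rw [h4, Q.Y_int_mul] at h3
    have hpZ : Prime (p : ℤ) := Nat.prime_iff_prime_int.1 hp
    rcases hpZ.dvd_or_dvd h3 with h5 | h5
    · exact absurd (by exact_mod_cast hpZ.dvd_of_dvd_pow h5) hpb
    · exact h5
  rcases lt_or_gt_of_ne hYz with h | h
  · refine ⟨-z₁, ?_, ?_, ?_⟩
    · rw [Ideal.span_singleton_neg, hspan]
    · have h3 : -z₁ = ((-1 : ℤ) : 𝓞 K) * z₁ := by push_cast; ring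
      rw [h3, Q.Y_int_mul]
      omega
    · intro p hp hpf hpb
      have h3 : (-z₁) ^ 5 = ((-1 : ℤ) : 𝓞 K) * z₁ ^ 5 := by push_cast; ring
      rw [h3, Q.Y_int_mul]
      exact (hdiv p hp hpf hpb).mul_left _
  · exact ⟨z₁, hspan, h, hdiv⟩

/-- `rad f ≤ b r` -/
theorem HGA_rad (f b : ℕ) (hb : 1 ≤ b) :
    rad f ≤ b * ∏ p ∈ f.primeFactors.filter (fun p => ¬ p ∣ b), p := by
  have h1 : rad f = (∏ p ∈ f.primeFactors.filter (fun p => p ∣ b), p) *
      ∏ p ∈ f.primeFactors.filter (fun p => ¬ p ∣ b), p := by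
    rw [rad, Finset.prod_filter_mul_prod_filter_not]
  rw [h1]
  refine Nat.mul_le_mul_right _ (Nat.le_of_dvd (by omega) ?_)
  refine Finset.prod_primes_dvd b ?_ ?_
  · intro p hp
    exact Nat.prime_iff.1 (Nat.prime_of_mem_primeFactors (Finset.mem_filter.1 hp).1)
  · intro p hp
    exact (Finset.mem_filter.1 hp).2

theorem hga (hLEMB : LEMB) (hLPR : LPR) (hHLN : HLN) (hHPR : HPR) : HGA := by
  intro K _ _ Q f b A Y hD hf1 hf5 hb hA hY S hS hpr
  classical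
  have hD0 : Q.D ≠ 0 := hD.ne
  have hsD : 0 < √|(Q.D : ℝ)| := by
    apply Real.sqrt_pos.2
    rw [abs_pos]
    exact_mod_cast hD0
  have hradpos : 0 < rad f := by
    rw [rad]
    exact Finset.prod_pos fun p hp => (Nat.prime_of_mem_primeFactors hp).pos
  have hradR : (0 : ℝ) < rad f := by exact_mod_cast hradpos
  set B : ℝ := 1 + 2 * Real.pi * Y / (rad f * √|(Q.D : ℝ)|) with hB
  have hB0 : 0 ≤ B := by
    rw [hB]
    have := Real.pi_pos
    positivity
  rcases S.eq_empty_or_nonempty with hemp | ⟨a₀, ha₀S⟩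
  · rw [hemp]
    simp only [Finset.card_empty, Nat.cast_zero]
    positivity
  obtain ⟨ha₀, pa₀, hco₀, hY₀, θ₀, hθ₀, hfθ₀⟩ := hS a₀ ha₀S
  have hg₀ := HGA_norm_pos a₀ ha₀
  set g₀ : ℕ := Ideal.absNorm a₀ with hg₀def
  have hg₀R : (0 : ℝ) < g₀ := by exact_mod_cast hg₀
  have hbR : (0 : ℝ) < b := by exact_mod_cast hb
  set S' : Finset (Ideal (𝓞 K)) := S.erase a₀ with hS'
  have hz : ∀ a : Ideal (𝓞 K), ∃ z : 𝓞 K, a ∈ S' → (Ideal.span {z} = a * Q.bar a₀ ∧ 0 < Q.Y z ∧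
      ∀ p : ℕ, p.Prime → p ∣ f → ¬ p ∣ b → (p : ℤ) ∣ Q.Y (z ^ 5)) := by
    intro a
    by_cases haS : a ∈ S'
    · obtain ⟨hne, haS1⟩ := Finset.mem_erase.1 haS
      obtain ⟨ha, pa, -, -, θ, hθ, hfθ⟩ := hS a haS1
      obtain ⟨z, hz⟩ := HGA_z hHPR Q f b A hD hb hA a a₀ ha ha₀ pa pa₀ hne θ θ₀ hθ hθ₀ hfθ hfθ₀
        (hpr a haS1 a₀ ha₀S)
      exact ⟨z, fun _ => hz⟩
    · exact ⟨0, fun h => absurd h haS⟩
  choose z hz using hz
  have hlab : ∀ p : ℕ, ∃ lab : 𝓞 K → Fin 6, p.Prime → p ∣ f → ∀ z z' : 𝓞 K,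
      (p : ℤ) ∣ Q.Y (z ^ 5) → (p : ℤ) ∣ Q.Y (z' ^ 5) →
      lab z = lab z' → (p : ℤ) ∣ Q.Y (Q.cj z * z') := by
    intro p
    by_cases hp : p.Prime ∧ p ∣ f
    · obtain ⟨lab, hlab⟩ := hHLN K Q p hp.1 (hf5 p hp.1 hp.2)
      exact ⟨lab, fun _ _ => hlab⟩
    · exact ⟨fun _ => 0, fun h1 h2 => absurd ⟨h1, h2⟩ hp⟩
  choose lab hlab using hlab
  obtain ⟨E, hE1, hE2, hE3, hE4, hE5⟩ := hLEMB K Q hD
  set r : ℕ := ∏ p ∈ f.primeFactors.filter (fun p => ¬ p ∣ b), p with hr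
  have hrpos : 0 < r := Finset.prod_pos fun p hp =>
    (Nat.prime_of_mem_primeFactors (Finset.mem_filter.1 hp).1).pos
  have hrR : (0 : ℝ) < r := by exact_mod_cast hrpos
  -- the labels
  let L : Ideal (𝓞 K) → (f.primeFactors → Fin 6) := fun a p => lab p (z a)
  have hfib : ∀ l : f.primeFactors → Fin 6, (((S'.filter (fun a => L a = l)).card : ℕ) : ℝ) ≤ B := by
    intro l
    set T : Finset (Ideal (𝓞 K)) := S'.filter (fun a => L a = l) with hT
    have hTS' : ∀ a ∈ T, a ∈ S' := fun a ha => (Finset.mem_filter.1 ha).1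
    have hTL : ∀ a ∈ T, L a = l := fun a ha => (Finset.mem_filter.1 ha).2
    -- two different elements
    have key : ∀ a ∈ T, ∀ a' ∈ T, a ≠ a' → ∃ x : 𝓞 K, Q.cj (z a) * z a' = (g₀ : 𝓞 K) * x ∧
        (r : ℝ) ≤ |(Q.Y x : ℝ)| := by
      intro a haT a' haT' hne
      have haS' := hTS' a haT
      have haS'' := hTS' a' haT'
      obtain ⟨-, haS1⟩ := Finset.mem_erase.1 haS'
      obtain ⟨-, haS2⟩ := Finset.mem_erase.1 haS''
      obtain ⟨ha, pa, -, -, -⟩ := hS a haS1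
      obtain ⟨ha', pa', -, -, -⟩ := hS a' haS2
      obtain ⟨z1, z2, z3⟩ := hz a haS'
      obtain ⟨w1, w2, w3⟩ := hz a' haS''
      have h1 : Ideal.span {Q.cj (z a) * z a'} = Ideal.span {(g₀ : 𝓞 K)} * (Q.bar a * a') := by
        rw [← Ideal.span_singleton_mul_span_singleton, ← Q.bar_span, z1, w1, Q.bar_mul, Q.bar_bar,
          hg₀def, ← Q.mul_bar a₀]
        ring
      have hg₀K : (g₀ : 𝓞 K) ≠ 0 := by
        have : g₀ ≠ 0 := by omega
        exact_mod_cast this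
      obtain ⟨x, hx1, hx2⟩ := exists_div_aux (Q.cj (z a) * z a') (g₀ : 𝓞 K) hg₀K _ h1
      refine ⟨x, hx1, ?_⟩
      have hYx : Q.Y x ≠ 0 := by
        intro h
        exact hne (HGA_eq hHPR Q a a' ha ha' pa pa' x hx2 h).symm
      have hrd : r ∣ (Q.Y x).natAbs := by
        refine Finset.prod_primes_dvd _ ?_ ?_
        · intro p hp
          exact Nat.prime_iff.1 (Nat.prime_of_mem_primeFactors (Finset.mem_filter.1 hp).1)
        · intro p hp
          obtain ⟨hp1, hpb⟩ := Finset.mem_filter.1 hp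
          have hpp := Nat.prime_of_mem_primeFactors hp1
          have hpf := Nat.dvd_of_mem_primeFactors hp1
          have hll : lab p (z a) = lab p (z a') := by
            have h2 := congrFun (hTL a haT) ⟨p, hp1⟩
            have h3 := congrFun (hTL a' haT') ⟨p, hp1⟩
            exact h2.trans h3.symm
          have h2 := hlab p hpp hpf (z a) (z a') (z3 p hpp hpf hpb) (w3 p hpp hpf hpb) hll
          rw [hx1] at h2
          have h3 : (g₀ : 𝓞 K) = ((g₀ : ℤ) : 𝓞 K) := by push_cast; rfl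
          rw [h3, Q.Y_int_mul] at h2
          have hpZ : Prime (p : ℤ) := Nat.prime_iff_prime_int.1 hpp
          rcases hpZ.dvd_or_dvd h2 with h4 | h4
          · exfalso
            have h5 : p ∣ g₀ := by exact_mod_cast h4
            have h6 : p ∣ Nat.gcd g₀ f := Nat.dvd_gcd h5 hpf
            rw [Nat.Coprime] at hco₀
            rw [hco₀] at h6
            exact hpp.one_lt.ne' (Nat.dvd_one.1 h6)
          · exact Int.natCast_dvd.1 h4
      have h2 : r ≤ (Q.Y x).natAbs := Nat.le_of_dvd (Int.natAbs_pos.2 hYx) hrd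
      have h3 : ((Q.Y x).natAbs : ℝ) = |(Q.Y x : ℝ)| := by
        rw [Nat.cast_natAbs, Int.cast_abs]
      rw [← h3]
      exact_mod_cast h2
    set V : ℝ := g₀ * r * (√|(Q.D : ℝ)| / 2) with hV
    have hV0 : 0 < V := by rw [hV]; positivity
    set R : ℝ := √(Y / b * g₀) with hR
    have hR2 : R ^ 2 = Y / b * g₀ := Real.sq_sqrt (by positivity)
    have hVle : ∀ a ∈ T, ∀ a' ∈ T, a ≠ a' →
        V ≤ |((starRingEnd ℂ) (E (z a)) * E (z a')).im| := by
      intro a haT a' haT' hne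
      obtain ⟨x, hx1, hx2⟩ := key a haT a' haT' hne
      rw [← hE3, ← map_mul, hx1, hE2]
      have h3 : (g₀ : 𝓞 K) = ((g₀ : ℤ) : 𝓞 K) := by push_cast; rfl
      rw [h3, Q.Y_int_mul]
      push_cast
      rw [abs_mul, abs_mul, abs_of_pos hg₀R, abs_of_pos (half_pos hsD), hV]
      exact mul_le_mul_of_nonneg_right (mul_le_mul_of_nonneg_left hx2 hg₀R.le) (half_pos hsD).le
    have hinj : Set.InjOn (fun a => E (z a)) (T : Set (Ideal (𝓞 K))) := by
      intro a haT a' haT' h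
      by_contra hne
      have h1 := hVle a haT a' haT' hne
      have h2 : E (z a) = E (z a') := h
      rw [h2, mul_comm, Complex.mul_conj, Complex.ofReal_im, abs_zero] at h1
      linarith
    have hL := hLPR (T.image fun a => E (z a)) R V hV0 (by
      intro y hy
      obtain ⟨a, haT, rfl⟩ := Finset.mem_image.1 hy
      have haS' := hTS' a haT
      obtain ⟨-, haS1⟩ := Finset.mem_erase.1 haS'
      obtain ⟨ha, pa, -, hYa, -⟩ := hS a haS1
      obtain ⟨z1, z2, z3⟩ := hz a haS'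
      constructor
      · rw [hE1, hR]
        apply Real.le_sqrt_of_sq_le
        rw [← hE4, nn, z1, map_mul, Q.absNorm_bar]
        push_cast
        refine mul_le_mul_of_nonneg_right ?_ hg₀R.le
        rw [le_div_iff₀ hbR]
        linarith
      · rw [hE2]
        have : (0 : ℝ) < Q.Y (z a) := by exact_mod_cast z2
        positivity) (by
      intro y hy y' hy' hyy
      obtain ⟨a, haT, rfl⟩ := Finset.mem_image.1 hy
      obtain ⟨a', haT', rfl⟩ := Finset.mem_image.1 hy'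
      exact hVle a haT a' haT' (fun h => hyy (by rw [h])))
    rw [Finset.card_image_of_injOn hinj] at hL
    refine hL.trans ?_
    rw [hB, hR2, add_comm]
    refine add_le_add le_rfl ?_
    have h1 : Real.pi * (Y / b * g₀) / V = 2 * Real.pi * Y / ((b * r : ℝ) * √|(Q.D : ℝ)|) := by
      rw [hV]
      field_simp
    rw [h1]
    have h2 : (rad f : ℝ) ≤ b * r := by exact_mod_cast HGA_rad f b hb
    have hpi := Real.pi_pos
    exact div_le_div_of_nonneg_left (by positivity) (by positivity)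
      (mul_le_mul_of_nonneg_right h2 hsD.le)
  -- sum over the labels
  have hcard : (S'.card : ℝ) ≤ 6 ^ f.primeFactors.card * B := by
    have h1 : S'.card = ∑ l ∈ (Finset.univ : Finset (f.primeFactors → Fin 6)),
        (S'.filter (fun a => L a = l)).card :=
      Finset.card_eq_sum_card_fiberwise fun a _ => Finset.mem_coe.2 (Finset.mem_univ _)
    rw [h1]
    push_cast
    calc ∑ l ∈ (Finset.univ : Finset (f.primeFactors → Fin 6)),
          (((S'.filter (fun a => L a = l)).card : ℕ) : ℝ)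
        ≤ ∑ _l ∈ (Finset.univ : Finset (f.primeFactors → Fin 6)), B :=
          Finset.sum_le_sum fun l _ => hfib l
      _ = 6 ^ f.primeFactors.card * B := by
          rw [Finset.sum_const, nsmul_eq_mul, Finset.card_univ, Fintype.card_fun, Fintype.card_fin,
            Fintype.card_coe]
          push_cast
          rfl
  have hlast : (S.card : ℝ) = S'.card + 1 := by
    rw [hS', Finset.card_erase_of_mem ha₀S]
    have : 1 ≤ S.card := Finset.card_pos.2 ⟨a₀, ha₀S⟩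
    rw [Nat.cast_sub this]
    push_cast
    ring
  rw [hlast]
  linarith

end Pool.Agent.helper26.T5
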