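import Pool.Agent.helper26.T5.SpecH

/-! # Row t5:HPR. Primitive ideals which differ by a rational factor are equal -/

set_option autoImplicit false

namespace Pool.Agent.helper26.T5

open Finset NumberField Pool.Agent.helper3.FT Pool.Agent.helper47.RA Pool.Agent.T5
open Pool.Agent.helper28.LT (rad)

theorem HPR_one {K : Type} [Field K] [NumberField K] (a a' : Ideal (𝓞 K)) (m c : ℕ)
    (hmc : Nat.Coprime m c) (ha' : Prim a')
    (h : Ideal.span {(m : 𝓞 K)} * a = Ideal.span {(c : 𝓞 K)} * a') : m = 1 := by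
  by_contra hm
  obtain ⟨q, hq, hqm⟩ := Nat.exists_prime_and_dvd hm
  have h1 : Ideal.span {(q : 𝓞 K)} ∣ Ideal.span {(c : 𝓞 K)} * a' := by
    rw [← h]
    refine Dvd.dvd.mul_right ?_ _
    rw [Ideal.dvd_span_singleton, Ideal.mem_span_singleton]
    exact_mod_cast Nat.cast_dvd_cast hqm
  have h2 : Nat.Coprime q c := Nat.Coprime.coprime_dvd_left hqm hmc
  have h3 : IsCoprime (q : 𝓞 K) (c : 𝓞 K) := by
    have h4 : IsCoprime (q : ℤ) (c : ℤ) := Nat.isCoprime_iff_coprime.2 h2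
    have h5 := h4.map (Int.castRingHom (𝓞 K))
    simpa using h5
  have h4 : IsCoprime (Ideal.span {(q : 𝓞 K)}) (Ideal.span {(c : 𝓞 K)}) :=
    (Ideal.isCoprime_span_singleton_iff _ _).2 h3
  exact ha' q hq (h4.dvd_of_dvd_mul_left h1)

theorem hpr : HPR := by
  intro K _ _ a a' m c hm hc ha ha' h
  obtain ⟨g, m', c', hg, hco, e1, e2⟩ := Nat.exists_coprime' (m := m) (n := c)
    (Nat.gcd_pos_of_pos_left _ hm)
  have hg0 : Ideal.span {(g : 𝓞 K)} ≠ (0 : Ideal (𝓞 K)) := by
    rw [Ne, Ideal.zero_eq_bot, Ideal.span_singleton_eq_bot]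
    exact_mod_cast hg.ne'
  have h1 : Ideal.span {(m' : 𝓞 K)} * a = Ideal.span {(c' : 𝓞 K)} * a' := by
    apply mul_left_cancel₀ hg0
    rw [← mul_assoc, ← mul_assoc, Ideal.span_singleton_mul_span_singleton,
      Ideal.span_singleton_mul_span_singleton, ← Nat.cast_mul, ← Nat.cast_mul, mul_comm g m',
      mul_comm g c', ← e1, ← e2]
    exact h
  have h2 : m' = 1 := HPR_one a a' m' c' hco ha' h1
  have h3 : c' = 1 := HPR_one a' a c' m' hco.symm ha h1.symm
  rw [h2, h3] at h1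
  simpa using h1

end Pool.Agent.helper26.T5
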